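import Pool.Agent.helper52.FT.A6defs
import Pool.Agent.helper61.FT.A1
import Pool.Agent.helper61.FT.A3
import Pool.Agent.helper96.FT.A2
import Pool.Agent.helper96.FT.A4b

set_option autoImplicit false

/-! FT project (MP_16912e_nt), modules A6d, A6e. -/

namespace Pool.Agent.helper3.FT

open Finset NumberField Pool.Agent.helper47.RA

variable {K : Type} [Field K] [NumberField K] {Q : QF K}

theorem h52_cast_ne {c : ℤ} (h : c ≠ 0) : (c : 𝓞 K) ≠ 0 := by rwa [Int.cast_ne_zero]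

/-- A6d: the case `Y β = 0` -/
theorem Full.zero_case (F : Full Q) (T : ℕ) (hB : F.Bdd T) (hn : Q.Y F.β = 0)
    (hk : Q.Y F.γ ≠ 0) : ∃ m g e : ℤ, (m, g, e, Q.Y F.γ) ∈ ZD Q.D T ∧
      2 * F.γ = e + Q.Y F.γ * (2 * Q.ω - Q.t) ∧ F.α = m ^ 2 * Q.cj F.γ := by
  obtain ⟨k, hkk⟩ : ∃ k, k = Q.Y F.γ := ⟨_, rfl⟩
  obtain ⟨⟨m, h3⟩, ⟨g, h4⟩, -, -⟩ := F.gcd_dvd k (by rw [hkk]; exact hk)
    (by rw [hn]; exact dvd_zero _) (by rw [hkk])
  have r1 := F.R1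
  have r3 := F.R3
  rw [h3, h4, hn, ← hkk] at r1
  rw [h4, hn, ← hkk] at r3
  rw [← hkk] at hk
  have hk2 : k ^ 2 ≠ 0 := pow_ne_zero _ hk
  have hmg : F.Z = -(m * g) := by
    apply mul_left_cancel₀ hk2
    linear_combination r1
  have hΛ : F.Λ = g ^ 2 := by
    apply mul_left_cancel₀ hk2
    linear_combination r3
  have g0 : g ≠ 0 := by
    rintro rfl
    exact F.hΛ (by rw [hΛ]; ring)
  have m0 : m ≠ 0 := by
    rintro rfl
    exact F.hZ (by rw [hmg]; ring)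
  obtain ⟨b, hb⟩ := (Q.Y_eq_zero_iff F.β).1 hn
  have hb2 : b ^ 2 = (m * g ^ 2) ^ 2 := by
    have h5 := F.nβ
    rw [hb, map_intCast, hmg, hΛ] at h5
    apply Int.cast_injective (α := 𝓞 K)
    push_cast at h5 ⊢
    linear_combination h5
  -- α
  have hα : F.α = m ^ 2 * Q.cj F.γ := by
    have h5 := F.e3
    rw [hb, hΛ] at h5
    have h6 : (b : 𝓞 K) ^ 2 = ((m : 𝓞 K) * g ^ 2) ^ 2 := by exact_mod_cast congrArg (Int.cast (R := 𝓞 K)) hb2
    have h7 : ((g : 𝓞 K)) ^ 4 ≠ 0 := pow_ne_zero _ (h52_cast_ne g0)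
    apply mul_left_cancel₀ h7
    rw [h6] at h5
    push_cast at h5
    linear_combination -h5
  -- trace
  obtain ⟨e, he, hebd⟩ := Q.exists_trace F.γ
  have hsub := Q.sub_cj F.γ
  rw [← hkk] at hsub
  have h2γ : 2 * F.γ = e + k * (2 * Q.ω - Q.t) := by
    linear_combination he + hsub
  have hDk : Q.D * k ^ 2 = e ^ 2 + 4 * m * g ^ 5 := by
    apply Int.cast_injective (α := 𝓞 K)
    have h5 := F.nγ
    rw [hmg, hΛ] at h5
    push_cast at h5 ⊢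
    have h6 := Q.delta_sq
    have h7 : (F.γ - Q.cj F.γ) ^ 2 = (F.γ + Q.cj F.γ) ^ 2 - 4 * (F.γ * Q.cj F.γ) := by ring
    rw [hsub, he, h5] at h7
    linear_combination h7 - (k : 𝓞 K) ^ 2 * h6
  -- γ² = ± m α'
  have hγ2 : ∃ s : ℤ, (s = 1 ∨ s = -1) ∧ F.γ ^ 2 = s * m * F.α' := by
    have h5 := F.e4
    rw [hb, hmg] at h5
    have h7 : (m : 𝓞 K) * g ^ 2 ≠ 0 := mul_ne_zero (h52_cast_ne m0) (pow_ne_zero _ (h52_cast_ne g0))
    rcases sq_eq_sq_iff_eq_or_eq_neg.1 hb2 with h | h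
    · refine ⟨1, Or.inl rfl, ?_⟩
      apply mul_left_cancel₀ h7
      rw [h] at h5
      push_cast at h5 ⊢
      linear_combination h5
    · refine ⟨-1, Or.inr rfl, ?_⟩
      apply mul_left_cancel₀ h7
      rw [h] at h5
      push_cast at h5 ⊢
      linear_combination -h5
  obtain ⟨s, hs, hγ2⟩ := hγ2
  -- m is squarefree
  have hsq : Squarefree m := by
    rw [← Int.squarefree_natAbs, Nat.squarefree_iff_prime_squarefree]
    intro q hq hqm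
    have h5 : (q : ℤ) ^ 2 ∣ m := by
      rw [← Int.dvd_natAbs, sq]
      exact_mod_cast hqm
    obtain ⟨m', hm'⟩ := h5
    have h6 : (q : 𝓞 K) ^ 2 ∣ F.γ ^ 2 := by
      refine ⟨s * m' * F.α', ?_⟩
      rw [hγ2, hm']
      push_cast
      ring
    have h7 : (q : 𝓞 K) ∣ F.γ := (IsIntegrallyClosed.pow_dvd_pow_iff two_ne_zero).1 h6
    have h8 : (q : 𝓞 K) ∣ Q.cj F.γ := by
      have := map_dvd Q.cj h7
      rwa [map_natCast] at this
    have h9 : (q : 𝓞 K) ^ 5 ∣ F.α := by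
      rw [hα, hm']
      obtain ⟨r, hr⟩ := h8
      refine ⟨m' ^ 2 * r, ?_⟩
      rw [hr]
      push_cast
      ring
    have h10 : Ideal.span {(q : 𝓞 K)} ^ 5 ∣ F.a ^ 5 := by
      rw [← F.iα, Ideal.span_singleton_pow, Ideal.dvd_span_singleton, Ideal.mem_span_singleton]
      exact h9
    exact F.pa q hq ((UniqueFactorizationMonoid.pow_dvd_pow_iff_dvd (by norm_num)).1 h10)
  -- m ∣ e
  have hme : m ∣ e := by
    rw [← hsq.dvd_pow_iff_dvd two_ne_zero]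
    obtain ⟨f, hf, -⟩ := Q.exists_trace F.α'
    refine ⟨s * f - 2 * g ^ 5, ?_⟩
    apply Int.cast_injective (α := 𝓞 K)
    have h5 := F.nγ
    rw [hmg, hΛ] at h5
    have h6 := congrArg Q.cj hγ2
    rw [map_pow, map_mul, map_mul, map_intCast, map_intCast] at h6
    push_cast at h5 ⊢
    rw [← he, ← hf]
    linear_combination hγ2 + h6 + 2 * h5
  refine ⟨m, g, e, ?_, ?_, hα⟩
  · rw [← hkk]
    refine ⟨⟨m0, g0, ?_, ?_, ?_, hme⟩, hk, hDk⟩
    · have := hB.bZ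
      rw [hmg, abs_neg] at this
      exact this
    · have := hB.bΛ
      rw [hΛ, abs_of_nonneg (sq_nonneg g)] at this
      exact this
    · have h5 := hebd.trans hB.bγ
      exact_mod_cast h5
  · rw [← hkk]
    exact h2γ

/-- A6e: the case `Y β = Y γ = 0` -/
theorem Full.both_zero (F : Full Q) (hn : Q.Y F.β = 0) (hk : Q.Y F.γ = 0) :
    ∃ z : 𝓞 K, F.a ^ 2 = Ideal.span {z} := by
  obtain ⟨b, hb⟩ := (Q.Y_eq_zero_iff F.β).1 hn
  obtain ⟨c, hc⟩ := (Q.Y_eq_zero_iff F.γ).1 hk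
  have h1 := F.e3
  rw [hb, hc, map_intCast] at h1
  have h2 : Q.Y F.α = 0 := by
    have h3 : (b : 𝓞 K) ^ 2 * c = ((b ^ 2 * c : ℤ) : 𝓞 K) := by push_cast; ring
    have h4 : ((F.Λ : ℤ) : 𝓞 K) ^ 2 * F.α = ((F.Λ ^ 2 : ℤ) : 𝓞 K) * F.α := by push_cast; ring
    rw [h3, h4] at h1
    have h5 := congrArg Q.Y h1
    rw [Q.Y_int, Q.Y_int_mul] at h5
    rcases mul_eq_zero.1 h5.symm with h | h
    · exact absurd h (pow_ne_zero _ F.hΛ)
    · exact h
  obtain ⟨x, hx⟩ := (Q.Y_eq_zero_iff F.α).1 h2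
  have h3 : Q.bar F.a = F.a := by
    apply pow_inj _ _ 5 (by norm_num)
    rw [← Q.bar_pow, ← F.iα, Q.bar_span, hx, map_intCast]
  refine ⟨(Ideal.absNorm F.a : 𝓞 K), ?_⟩
  rw [← Q.mul_bar, h3, sq]

end Pool.Agent.helper3.FT
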