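import Pool.Agent.helper52.FT.A6a
import Pool.Agent.helper52.FT.A6d
import Pool.Agent.helper8.FT.A5c

set_option autoImplicit false

/-! FT project (MP_16912e_nt), module A6f. -/

namespace Pool.Agent.helper3.FT

open Finset NumberField Pool.Agent.helper47.RA

variable {K : Type} [Field K] [NumberField K] {Q : QF K}

/-- the class of the ideal is `C` -/
def h52_Cls (I : Ideal (𝓞 K)) (C : ClassGroup (𝓞 K)) : Prop :=
  ∃ h : I ∈ nonZeroDivisors (Ideal (𝓞 K)), ClassGroup.mk0 ⟨I, h⟩ = C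

theorem h52_Cls.uniq {I : Ideal (𝓞 K)} {C C' : ClassGroup (𝓞 K)} (h : h52_Cls I C)
    (h' : h52_Cls I C') : C = C' := by
  obtain ⟨h1, rfl⟩ := h
  obtain ⟨h2, rfl⟩ := h'
  rfl

/-- the degenerate datum determines the ideal -/
theorem h52_zero_inj (F F' : Full Q) {m k : ℤ} {e : ℤ}
    (h1 : 2 * F.γ = e + k * (2 * Q.ω - Q.t)) (h2 : F.α = m ^ 2 * Q.cj F.γ)
    (h1' : 2 * F'.γ = e + k * (2 * Q.ω - Q.t)) (h2' : F'.α = m ^ 2 * Q.cj F'.γ) : F.a = F'.a := by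
  have hγ : F.γ = F'.γ := mul_left_cancel₀ two_ne_zero (h1.trans h1'.symm)
  apply pow_inj _ _ 5 (by norm_num)
  rw [← F.iα, ← F'.iα, h2, h2', hγ]

/-- the relation used for the injection -/
def h52_Rel (Q : QF K) (T : ℕ) (C : ClassGroup (𝓞 K)) :
    Unit ⊕ (SD Q.D T) ⊕ (ZD Q.D T) ⊕ (ZD Q.D T) → Prop
  | Sum.inl _ => C = 1
  | Sum.inr (Sum.inl t) => ∃ F : Full Q, h52_Cls F.a C ∧ Q.Y F.β ≠ 0 ∧ Q.Y F.γ ≠ 0 ∧ F.tup = t.1
  | Sum.inr (Sum.inr (Sum.inl t)) => ∃ F : Full Q, h52_Cls F.a C ∧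
      2 * F.γ = t.1.2.2.1 + t.1.2.2.2 * (2 * Q.ω - Q.t) ∧ F.α = t.1.1 ^ 2 * Q.cj F.γ
  | Sum.inr (Sum.inr (Sum.inr t)) => ∃ F : Full Q, (∃ C', h52_Cls F.a C' ∧ C' ^ 2 = C) ∧
      2 * F.γ = t.1.2.2.1 + t.1.2.2.2 * (2 * Q.ω - Q.t) ∧ F.α = t.1.1 ^ 2 * Q.cj F.γ

theorem h52_Rel_inj (T : ℕ) (C C' : ClassGroup (𝓞 K))
    (s : Unit ⊕ (SD Q.D T) ⊕ (ZD Q.D T) ⊕ (ZD Q.D T)) (h : h52_Rel Q T C s)
    (h' : h52_Rel Q T C' s) : C = C' := by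
  rcases s with s | s | s | s
  · exact Eq.trans (h : C = 1) (h' : C' = 1).symm
  · obtain ⟨F, c, hn, hk, ht⟩ := h
    obtain ⟨F', c', hn', hk', ht'⟩ := h'
    have := F.tup_inj F' hn hk hn' hk' (ht.trans ht'.symm)
    rw [← this] at c'
    exact c.uniq c'
  · obtain ⟨F, c, h1, h2⟩ := h
    obtain ⟨F', c', h1', h2'⟩ := h'
    have := h52_zero_inj F F' h1 h2 h1' h2'
    rw [← this] at c'
    exact c.uniq c'
  · obtain ⟨F, ⟨C₁, c, e⟩, h1, h2⟩ := h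
    obtain ⟨F', ⟨C₁', c', e'⟩, h1', h2'⟩ := h'
    have := h52_zero_inj F F' h1 h2 h1' h2'
    rw [← this] at c'
    rw [← e, ← e', c.uniq c']

theorem h52_Rel_ex (T : ℕ) (hT : 16 ^ 4 * |Q.D| ≤ (T : ℤ) ^ 4) (C : ClassGroup (𝓞 K))
    (hC : C ^ 5 = 1) : ∃ s : Unit ⊕ (SD Q.D T) ⊕ (ZD Q.D T) ⊕ (ZD Q.D T), h52_Rel Q T C s := by
  obtain ⟨F, hB, hcls⟩ := exists_full Q T hT C hC
  by_cases hn : Q.Y F.β = 0
  · by_cases hk : Q.Y F.γ = 0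
    · obtain ⟨z, hz⟩ := F.both_zero hn hk
      refine ⟨Sum.inl (), ?_⟩
      obtain ⟨h0, hC1⟩ := hcls
      have h2 : C ^ 2 = 1 := by
        rw [← hC1, ← map_pow]
        have h3 : F.a ^ 2 ∈ nonZeroDivisors (Ideal (𝓞 K)) := pow_mem h0 2
        have h4 : (⟨F.a, h0⟩ : nonZeroDivisors (Ideal (𝓞 K))) ^ 2 = ⟨F.a ^ 2, h3⟩ := rfl
        rw [h4, ClassGroup.mk0_eq_one_iff h3, hz]
        exact ⟨⟨z, rfl⟩⟩
      show C = 1
      calc C = C ^ 5 * (C ^ 2)⁻¹ * (C ^ 2)⁻¹ := by group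
        _ = 1 := by rw [hC, h2]; simp
    · obtain ⟨m, g, e, h1, h2, h3⟩ := F.zero_case T hB hn hk
      exact ⟨Sum.inr (Sum.inr (Sum.inl ⟨_, h1⟩)), F, hcls, h2, h3⟩
  · by_cases hk : Q.Y F.γ = 0
    · obtain ⟨F', ha, hL, hβ, hγ, hu, hv, hZ, hΛ⟩ := exists_swap F
      have hY : Q.Y F'.γ = - Q.Y F.β := by rw [hγ, Q.Y_cj]
      have hB' : F'.Bdd T := by
        refine ⟨?_, ?_, ?_, ?_, ?_, ?_, ?_, ?_⟩
        · rw [hβ]
          exact hB.bk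
        · rw [hY, abs_neg]
          exact hB.bn
        · rw [hu]
          exact hB.bg
        · rw [hv, Q.Y_cj, abs_neg]
          exact hB.bm
        · rw [hZ]
          exact hB.bΛ
        · rw [hΛ]
          exact hB.bZ
        · rw [hβ]
          exact hB.bγ
        · rw [hγ, Q.v₁_cj, Q.v₂_cj, add_comm]
          exact hB.bβ
      have hn' : Q.Y F'.β = 0 := by rw [hβ]; exact hk
      have hk' : Q.Y F'.γ ≠ 0 := by rw [hY]; exact neg_ne_zero.2 hn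
      obtain ⟨m, g, e, h1, h2, h3⟩ := F'.zero_case T hB' hn' hk'
      refine ⟨Sum.inr (Sum.inr (Sum.inr ⟨_, h1⟩)), F', ?_, h2, h3⟩
      obtain ⟨h0, hC1⟩ := hcls
      -- the class of `L` is `C ^ (-2)`
      have hL0 : F.L ∈ nonZeroDivisors (Ideal (𝓞 K)) := by
        rw [mem_nonZeroDivisors_iff_ne_zero]
        intro h4
        have h5 := F.nL
        rw [h4] at h5
        simp only [Ideal.zero_eq_bot, Ideal.absNorm_bot] at h5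
        exact F.hΛ (abs_eq_zero.1 (by exact_mod_cast h5.symm))
      refine ⟨ClassGroup.mk0 ⟨F.L, hL0⟩, ⟨by rw [ha]; exact hL0, ?_⟩, ?_⟩
      · congr 1
        exact Subtype.ext ha
      · have h4 : C ^ 2 * ClassGroup.mk0 ⟨F.L, hL0⟩ = 1 := by
          rw [← hC1, ← map_pow, ← map_mul]
          have h5 : F.a ^ 2 * F.L ∈ nonZeroDivisors (Ideal (𝓞 K)) := mul_mem (pow_mem h0 2) hL0
          have h6 : (⟨F.a, h0⟩ : nonZeroDivisors (Ideal (𝓞 K))) ^ 2 * ⟨F.L, hL0⟩ =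
            ⟨F.a ^ 2 * F.L, h5⟩ := rfl
          rw [h6, ClassGroup.mk0_eq_one_iff h5, ← F.iβ]
          exact ⟨⟨F.β, rfl⟩⟩
        have h5 : ClassGroup.mk0 ⟨F.L, hL0⟩ = (C ^ 2)⁻¹ := eq_inv_of_mul_eq_one_right h4
        rw [h5]
        calc ((C ^ 2)⁻¹) ^ 2 = C * (C ^ 5)⁻¹ := by group
          _ = C := by rw [hC]; simp
    · exact ⟨Sum.inr (Sum.inl ⟨F.tup, F.tup_mem T hB hn hk⟩), F, hcls, hn, hk, rfl⟩

/-- A6f (from all the above) -/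
theorem torsion_le (Q : QF K) (T : ℕ) (hT : 16 ^ 4 * |Q.D| ≤ (T : ℤ) ^ 4)
    (h1 : (SD Q.D T).Finite) (h2 : (ZD Q.D T).Finite) :
    Nat.card {C : ClassGroup (𝓞 K) // C ^ 5 = 1} ≤
      1 + (SD Q.D T).ncard + 2 * (ZD Q.D T).ncard := by
  have hex : ∀ C : {C : ClassGroup (𝓞 K) // C ^ 5 = 1},
      ∃ s : Unit ⊕ (SD Q.D T) ⊕ (ZD Q.D T) ⊕ (ZD Q.D T), h52_Rel Q T C.1 s :=
    fun C => h52_Rel_ex T hT C.1 C.2
  choose Φ hΦ using hex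
  have hinj : Function.Injective Φ := by
    intro C C' h
    have e1 := hΦ C
    have e2 := hΦ C'
    rw [← h] at e2
    exact Subtype.ext (h52_Rel_inj T _ _ _ e1 e2)
  have := h1.to_subtype
  have := h2.to_subtype
  refine (Nat.card_le_card_of_injective Φ hinj).trans ?_
  rw [Nat.card_sum, Nat.card_sum, Nat.card_sum, Nat.card_unique, Nat.card_coe_set_eq,
    Nat.card_coe_set_eq]
  omega

end Pool.Agent.helper3.FT
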