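import Pool.Agent.helper52.FT.A6defs
import Pool.Agent.helper61.FT.A1
import Pool.Agent.helper61.FT.A3
import Pool.Agent.helper96.FT.A2
import Pool.Agent.helper96.FT.A4b

set_option autoImplicit false

/-! FT project (MP_16912e_nt), module A6a, A6b, A6c. -/

namespace Pool.Agent.helper3.FT

open Finset NumberField Pool.Agent.helper47.RA

variable {K : Type} [Field K] [NumberField K] {Q : QF K}

theorem h52_cj_int (Q : QF K) (c : ℤ) : Q.cj (c : 𝓞 K) = c := map_intCast Q.cj c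

theorem h52_prim_bar (Q : QF K) {I : Ideal (𝓞 K)} (h : Prim I) : Prim (Q.bar I) := by
  intro q hq hd
  apply h q hq
  obtain ⟨J, hJ⟩ := hd
  refine ⟨Q.bar J, ?_⟩
  have h1 : Q.bar (Q.bar I) = Q.bar (Ideal.span {(q : 𝓞 K)}) * Q.bar J := by
    rw [hJ, Q.bar_mul]
  rw [Q.bar_bar, Q.bar_span, map_natCast] at h1
  exact h1

/-- A6a: the symmetric datum -/
theorem exists_swap (F : Full Q) : ∃ F' : Full Q, F'.a = F.L ∧ F'.L = Q.bar F.a ∧ F'.β = F.γ ∧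
    F'.γ = Q.cj F.β ∧ F'.u = F.v ∧ F'.v = Q.cj F.u ∧ F'.Z = F.Λ ∧ F'.Λ = F.Z := by
  have hcc := Q.cj_cj
  refine ⟨{ a := F.L, L := Q.bar F.a, β := F.γ, γ := Q.cj F.β, u := F.v, v := Q.cj F.u,
            α := F.α', α' := Q.cj F.α, Z := F.Λ, Λ := F.Z, hZ := F.hΛ, hΛ := F.hZ,
            e1 := ?_, e2 := ?_, e3 := ?_, e4 := ?_, nβ := ?_, nγ := ?_, iβ := ?_, iγ := ?_,
            iu := ?_, iv := ?_, iα := ?_, iα' := ?_, na := F.nL, nL := ?_, pa := F.pL,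
            pL := h52_prim_bar Q F.pa }, rfl, rfl, rfl, rfl, rfl, rfl, rfl, rfl⟩
  · rw [hcc, mul_comm, F.e2]
  · have := congrArg Q.cj F.e1
    rw [map_mul, map_mul, hcc, h52_cj_int] at this
    rw [mul_comm, this]
  · rw [hcc, F.e4]
  · have := congrArg Q.cj F.e3
    rw [map_mul, map_mul, map_pow, map_pow, hcc, h52_cj_int] at this
    rw [this]
  · rw [F.nγ]
    ring
  · rw [hcc, mul_comm, F.nβ]
    ring
  · rw [F.iγ]
    ring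
  · rw [← Q.bar_span, F.iβ, Q.bar_mul, Q.bar_pow]
    ring
  · rw [F.iv, Q.bar_bar]
    ring
  · rw [← Q.bar_span, F.iu, Q.bar_mul, Q.bar_pow, Q.bar_bar]
    ring
  · exact F.iα'
  · rw [← Q.bar_span, F.iα, Q.bar_pow]
  · rw [Q.absNorm_bar, F.na]

theorem h52_D_ne (Q : QF K) : Q.D ≠ 0 := by
  rcases Q.hD with ⟨h, -, -⟩ | ⟨m, h, hm, -⟩
  · intro h0
    rw [h0] at h
    norm_num at h
  · intro h0
    omega

/-- the numbers behind the reduced tuple -/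
theorem Full.h52_red (F : Full Q) (hn : Q.Y F.β ≠ 0) :
    ∃ d n k m g y y' : ℤ, 0 < d ∧ d = Int.gcd (Q.Y F.β) (Q.Y F.γ) ∧ Q.Y F.β = d * n ∧
      Q.Y F.γ = d * k ∧ Q.Y F.u = d * m ∧ Q.Y F.v = d * g ∧ Q.Y F.α = d * y ∧
      Q.Y F.α' = d * y' ∧ F.tup = (n, k, m, g, F.Z, F.Λ) ∧
      m * g = F.Λ * n ^ 2 - F.Z * k ^ 2 ∧ -(k * y) = m ^ 2 - F.Z * n ^ 2 ∧
      n * y' = g ^ 2 - F.Λ * k ^ 2 ∧
      Q.D * (d * n * k) ^ 2 = (F.Z * g - F.Λ * m) ^ 2 - 4 * F.Z ^ 2 * F.Λ * k ^ 2 := by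
  obtain ⟨d, hd⟩ : ∃ d : ℤ, d = Int.gcd (Q.Y F.β) (Q.Y F.γ) := ⟨_, rfl⟩
  have hpos : 0 < d := by
    rw [hd]
    exact_mod_cast Int.gcd_pos_of_ne_zero_left _ hn
  obtain ⟨n, h1⟩ : d ∣ Q.Y F.β := by
    rw [hd]
    exact Int.gcd_dvd_left ..
  obtain ⟨k, h2⟩ : d ∣ Q.Y F.γ := by
    rw [hd]
    exact Int.gcd_dvd_right ..
  obtain ⟨⟨m, h3⟩, ⟨g, h4⟩, ⟨y, h5⟩, ⟨y', h6⟩⟩ := F.gcd_dvd d hpos.ne' ⟨n, h1⟩ ⟨k, h2⟩
  have r1 := F.R1
  have r2 := F.R2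
  have r3 := F.R3
  have r4 := F.R4
  rw [h1, h2, h3, h4] at r1 r4
  rw [h1, h2, h3, h5] at r2
  rw [h1, h2, h4, h6] at r3
  have hd2 : d ^ 2 ≠ 0 := pow_ne_zero _ hpos.ne'
  refine ⟨d, n, k, m, g, y, y', hpos, hd, h1, h2, h3, h4, h5, h6, ?_, ?_, ?_, ?_, ?_⟩
  · unfold Full.tup
    rw [← hd, h1, h2, h3, h4, Int.mul_ediv_cancel_left _ hpos.ne',
      Int.mul_ediv_cancel_left _ hpos.ne', Int.mul_ediv_cancel_left _ hpos.ne',
      Int.mul_ediv_cancel_left _ hpos.ne']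
  · apply mul_left_cancel₀ hd2
    linear_combination r1
  · apply mul_left_cancel₀ hd2
    linear_combination r2
  · apply mul_left_cancel₀ hd2
    linear_combination r3
  · apply mul_left_cancel₀ hd2
    linear_combination r4

theorem h52_abs_le {d n : ℤ} (hd : 0 < d) {B : ℤ} (h : |d * n| ≤ B) : |n| ≤ B := by
  rw [abs_mul, abs_of_pos hd] at h
  nlinarith [abs_nonneg n]

theorem Full.tup_mem (F : Full Q) (T : ℕ) (hB : F.Bdd T) (hn : Q.Y F.β ≠ 0)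
    (hk : Q.Y F.γ ≠ 0) : F.tup ∈ SD Q.D T := by
  obtain ⟨d, n, k, m, g, y, y', hpos, hd, h1, h2, h3, h4, h5, h6, ht, r1, r2, r3, r4⟩ :=
    F.h52_red hn
  have b1 := hB.bn
  have b2 := hB.bk
  have b3 := hB.bm
  have b4 := hB.bg
  rw [h1] at b1
  rw [h2] at b2
  rw [h3] at b3
  rw [h4] at b4
  have n0 : n ≠ 0 := by
    rintro rfl
    exact hn (by rw [h1, mul_zero])
  have k0 : k ≠ 0 := by
    rintro rfl
    exact hk (by rw [h2, mul_zero])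
  have hcop : IsCoprime n k := by
    have hg : 0 < Int.gcd (Q.Y F.β) (Q.Y F.γ) := Int.gcd_pos_of_ne_zero_left _ hn
    have h7 := Int.isCoprime_iff_gcd_eq_one.2 (Int.gcd_ediv_gcd_ediv_gcd hg)
    rwa [← hd, h1, h2, Int.mul_ediv_cancel_left _ hpos.ne',
      Int.mul_ediv_cancel_left _ hpos.ne'] at h7
  rw [ht]
  refine ⟨⟨n0, k0, hcop, h52_abs_le hpos b1, h52_abs_le hpos b2, h52_abs_le hpos b3,
    h52_abs_le hpos b4, hB.bZ, hB.bΛ, r1, ⟨-y, ?_⟩, ⟨y', ?_⟩⟩, d, hpos.ne', r4⟩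
  · show m ^ 2 - F.Z * n ^ 2 = k * -y
    linear_combination -r2
  · show g ^ 2 - F.Λ * k ^ 2 = n * y'
    linear_combination -r3

/-- `β` is determined by its trace and `Y` -/
theorem h52_ext (Q : QF K) (x y : 𝓞 K) (h1 : x + Q.cj x = y + Q.cj y) (h2 : Q.Y x = Q.Y y) :
    x = y := by
  have e1 := Q.sub_cj x
  have e2 := Q.sub_cj y
  rw [h2, ← e2] at e1
  have h3 : (2 : 𝓞 K) * x = 2 * y := by linear_combination h1 + e1
  exact mul_left_cancel₀ two_ne_zero h3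

/-- A6c -/
theorem Full.tup_inj (F F' : Full Q) (hn : Q.Y F.β ≠ 0) (hk : Q.Y F.γ ≠ 0)
    (hn' : Q.Y F'.β ≠ 0) (hk' : Q.Y F'.γ ≠ 0) (h : F.tup = F'.tup) : F.a = F'.a := by
  obtain ⟨d, n, k, m, g, y, y', hpos, hd, h1, h2, h3, h4, h5, h6, ht, r1, r2, r3, r4⟩ :=
    F.h52_red hn
  obtain ⟨d₂, n₂, k₂, m₂, g₂, y₂, y₂', hpos₂, hd₂, h1₂, h2₂, h3₂, h4₂, h5₂, h6₂, ht₂, r1₂, r2₂, r3₂,
    r4₂⟩ := F'.h52_red hn'
  rw [ht, ht₂] at h
  simp only [Prod.mk.injEq] at h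
  obtain ⟨rfl, rfl, rfl, rfl, hZ, hL⟩ := h
  have n0 : n ≠ 0 := by
    rintro rfl
    exact hn (by rw [h1, mul_zero])
  have k0 : k ≠ 0 := by
    rintro rfl
    exact hk (by rw [h2, mul_zero])
  have hdd : d = d₂ := by
    rw [← hZ, ← hL, ← r4] at r4₂
    have e1 : (d₂ * n * k) ^ 2 = (d * n * k) ^ 2 := mul_left_cancel₀ (h52_D_ne Q) r4₂
    have e2 : (n * k) ^ 2 * d₂ ^ 2 = (n * k) ^ 2 * d ^ 2 := by linear_combination e1
    have e3 := mul_left_cancel₀ (pow_ne_zero 2 (mul_ne_zero n0 k0)) e2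
    exact ((pow_left_inj₀ hpos₂.le hpos.le two_ne_zero).1 e3).symm
  subst hdd
  have t1 := F.trβ
  have t2 := F'.trβ
  have t3 := F.trγ
  have t4 := F'.trγ
  rw [h2, h3, h4] at t1
  rw [h2₂, h3₂, h4₂, ← hZ, ← hL, ← t1] at t2
  rw [h1, h3, h4] at t3
  rw [h1₂, h3₂, h4₂, ← hZ, ← hL, ← t3] at t4
  have c1 : ((d * k : ℤ) : 𝓞 K) ≠ 0 := by
    rw [Int.cast_ne_zero]
    exact mul_ne_zero hpos.ne' k0
  have c2 : ((d * n : ℤ) : 𝓞 K) ≠ 0 := by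
    rw [Int.cast_ne_zero]
    exact mul_ne_zero hpos.ne' n0
  have hβ : F.β = F'.β := h52_ext Q _ _ (mul_left_cancel₀ c1 t2).symm (by rw [h1, h1₂])
  have hγ : F.γ = F'.γ := h52_ext Q _ _ (mul_left_cancel₀ c2 t4).symm (by rw [h2, h2₂])
  have hα : F.α = F'.α := by
    have e1 := F.e3
    have e2 := F'.e3
    rw [← hβ, ← hγ, e1, ← hL] at e2
    have : ((F.Λ : ℤ) : 𝓞 K) ^ 2 ≠ 0 := pow_ne_zero _ (by rw [Int.cast_ne_zero]; exact F.hΛ)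
    exact mul_left_cancel₀ this e2
  apply pow_inj _ _ 5 (by norm_num)
  rw [← F.iα, ← F'.iα, hα]

end Pool.Agent.helper3.FT
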