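import Pool.Agent.helper3.FT.Defs
import Pool.Agent.helper3.FT.AlgDefs

set_option autoImplicit false

/-! FT project (MP_16912e_nt): definitions of the tuples. -/

namespace Pool.Agent.helper3.FT

open NumberField Pool.Agent.helper47.RA

variable {K : Type} [Field K] [NumberField K] {Q : QF K}

/-- A6b: the reduced tuple `(n/d, k/d, m/d, g/d, Z, Λ)` -/
noncomputable def Full.tup (F : Full Q) : ℤ × ℤ × ℤ × ℤ × ℤ × ℤ :=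
  (Q.Y F.β / Int.gcd (Q.Y F.β) (Q.Y F.γ), Q.Y F.γ / Int.gcd (Q.Y F.β) (Q.Y F.γ),
    Q.Y F.u / Int.gcd (Q.Y F.β) (Q.Y F.γ), Q.Y F.v / Int.gcd (Q.Y F.β) (Q.Y F.γ), F.Z, F.Λ)

/-- the tuples of discriminant `D` -/
def SD (D : ℤ) (T : ℕ) : Set (ℤ × ℤ × ℤ × ℤ × ℤ × ℤ) :=
  {t | t ∈ SS T ∧ ∃ d : ℤ, d ≠ 0 ∧ D * (d * t.1 * t.2.1) ^ 2 =
    (t.2.2.2.2.1 * t.2.2.2.1 - t.2.2.2.2.2 * t.2.2.1) ^ 2 -
      4 * t.2.2.2.2.1 ^ 2 * t.2.2.2.2.2 * t.2.1 ^ 2}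

/-- the degenerate tuples `(m, g, e, k)` of discriminant `D` -/
def ZD (D : ℤ) (T : ℕ) : Set (ℤ × ℤ × ℤ × ℤ) :=
  {t | (t.1, t.2.1, t.2.2.1) ∈ ZZ T ∧ t.2.2.2 ≠ 0 ∧
    D * t.2.2.2 ^ 2 = t.2.2.1 ^ 2 + 4 * t.1 * t.2.1 ^ 5}

end Pool.Agent.helper3.FT
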